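import Mathlib
import Pool.Agent.X300.RB.Surj

/-!
# The Tate conjecture for `A × Z` and for `Z`, singular or not, for almost all abelian varieties `A`

Let `A` be a product of powers of abelian varieties of dimensions `g i` over the field with `q`
elements (over an extension with `Q = q ^ s` elements and up to isogeny), given by their Weil
polynomials `f i`, and let `Z` be any variety over the field with `Q` elements (a separated scheme of
finite type, singular or not, proper or not).

The theorem says that for almost all families `f` of Weil polynomials (all but a proportion
`O (q ^ (-1 / 6) log q)`, for all isogeny classes as well as for the ordinary ones) the cycle class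
map of `A × Z` in dimension `b` is onto the Galois invariants in the etale homology
`H_{2 b}(A × Z, ℚ_ℓ(b))` if and only if the cycle class maps of `Z` in the dimensions `b - k`,
`0 ≤ k ≤ dim A`, are, for all `Z` whose Frobenius eigenvalues lie, up to powers, in a group generated
by the nonzero elements of the number field `E` and `r < g i` further numbers. This condition is
fulfilled for any given variety `Z`, with `r = 0`, if `E` contains the eigenvalues of Frobenius on the
cohomology with compact supports of `Z` and their conjugates. Nothing is assumed about the Chow groups
of `Z` or of `A × Z` but their formal properties.

The groups are written as in the case of cohomology (`RelData`); only the bidegrees `(2 j, j)` matter.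
For an arbitrary `Z` one takes for the group of `Z` in the bidegree `(2 j, j)` the group `CH_{-j}(Z)`
or `H_{-2 j}(Z, -j)`, and for the group of `A × Z` the group `CH_{dim A - j}(A × Z)` or
`H_{2 (dim A - j)}(A × Z, dim A - j)`. Frobenius on `A` operates by pull-back, Frobenius on `Z` by
the inverse of the push-forward; on the Galois invariants in `ℓ`-adic homology their product is then
the multiplication by `Q ^ j`. The Chow groups are tensored with `ℚ_ℓ`.
-/

set_option autoImplicit false

namespace Pool.Agent.Results.MP_40dc3c_ag.AlmostAllFactorsSingular

open Pool.Agent.Y156.L Pool.Agent.X300.RB

/-- Let `r < g i` for all `i` and let `E` be a number field. Almost all families of abelian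
varieties of dimensions `g i` over the field with `q` elements, given by their Weil polynomials
`f i`, have the property `TateForSingularOver E q r f`: for products `A` of powers of these abelian
varieties and all varieties `Z` of rank at most `r` over `E`, all cycle class maps of `A × Z` are
onto the Galois invariants if and only if all those of `Z` are. -/
theorem result {I : Type} [Fintype I] (g : I → ℕ) (r : ℕ) (hr : ∀ i, r < g i)
    (E : IntermediateField ℚ ℂ) [FiniteDimensional ℚ E] :
    AlmostAll g fun q f => TateForSingularOver E q r f :=
  count_surj g r hr E

end Pool.Agent.Results.MP_40dc3c_ag.AlmostAllFactorsSingular
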