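import Pool.Agent.X312.FK.Act

/-!
# A gap law for the Tate conjecture for the varieties `Y × X ^ n`, `Y` singular or open

Let `k` be an algebraic closure of a finitely generated field, `X` a smooth projective variety
over `k` such that `ℓ`-adic homological and numerical equivalence agree on its powers, and `Y`
**any variety** over `k`, which need not be smooth, proper or irreducible. Let `T(Z)` be the space
of the Tate classes in the `ℓ`-adic homology `⊕_j H_(2 j)(Y × Z, ℚ_ℓ(j))`, that is the classes
fixed by an open subgroup of the Galois group of `k` over a finitely generated field of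
definition, and `A(Z)` the subspace generated by the classes of the algebraic cycles on `Y × Z`.
Let `ρ(Z)` be the rank of the cycles of all codimensions on `Z` modulo numerical equivalence, and
`b` the sum of the Betti numbers of `X`. For all `m ≥ 1`: **all Tate classes on** `Y × X ^ m`
**are linear combinations of classes of cycles, or for all** `n ≥ 1`

`dim T(X ^ n) / A(X ^ n) ≥ (1 - 4 (m + 3) b ^ (m + 5) log (n + 1) / n) ρ(X ^ n)`.

So for fixed `X` and `Y` the conjecture Q1 for all the varieties `Y × X ^ m` is equivalent to the
statement that for each `m` the number of Tate classes on `Y × X ^ n` independent modulo algebraic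
classes is smaller than `(1 - ε_n) ρ(X ^ n)` for one `n`, where `ε_n = 4 (m + 3) b ^ (m + 5) log
(n + 1) / n` tends to zero. The hypothesis on `X` is known in characteristic zero for example for
surfaces, abelian varieties and products of them, and curves in all characteristics for suitable
`ℓ`; nothing is assumed on `Y`. In the known reductions of the conjecture to smooth projective
varieties `Y × X ^ n` is replaced by varieties of other types, so that a bound of this kind for `Y
× X ^ n` itself does not follow.

The proof. For `Z` a power of `X` the algebraic correspondences act on the spaces `T(Z)` of Tate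
classes and `A(Z)` of classes of cycles. If `A(P) ≠ T(P)` for `P = X ^ m`, one takes an idempotent
algebraic correspondence `g` on `P` of minimal rank with `g T(P) ⊄ A(P)` and an element `z` of `g
T(P)` which is not in `A(P)`. The correspondences `x` with `x z ∈ A(P)` have a nilpotent
compression `g x g`, so the trace of `g x` vanishes, and so `dim T(Z) / A(Z)` is at least the rank
of the trace form `(u, v) ↦ tr (g v u)` on the correspondences between `P` and `Z`; for `Z = X ^
n` this rank is compared with `ρ(X ^ n)` by the log-convexity of the sequence of the ranks of the
intersection forms and by the symmetric group.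
-/

set_option autoImplicit false

open CategoryTheory AlgebraicGeometry

universe u v w

namespace Pool.Agent.Results.MP_40dc3c_ag.RelativeGapLaw

open Pool.Agent.H914 VarClass Obj WeilCohomology
open Pool.Agent.X312.FK (HomData HomData.IsFunctor TateClass IndepMod gapBound)
open Pool.Agent.Y133.Half (pw cycRank)

variable {k : Type u} [Field k] {𝒱 : VarClass k} {ops : CycleOps 𝒱}
  {W : WeilCohomology.{u, v} ops}

/-- The sum of the Betti numbers of `X`. -/
noncomputable def totalBetti (W : WeilCohomology.{u, v} ops) (X : 𝒱.Obj) : ℕ :=
  Module.finrank W.K (W.H X)

/-- **The gap law for the Tate conjecture.** Here `T.M Z` is in the intended use the homology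
`⊕_j H_(2 j)(Y × Z, ℚ_ℓ(j))`, on which the correspondences between smooth projective varieties act,
`ρ` is the action of the Galois group `G`, `A Z` is the subspace generated by the classes of the cycles on `Y × Z`, and
`pw X m` is the product of `m + 1` copies of `X`. -/
theorem result (T : HomData W) (hT : T.IsFunctor) {G : Type v} [Group G]
    (ρ : ∀ Z : 𝒱.Obj, G → T.M Z → T.M Z) (hρ : T.IsAction ρ)
    (A : ∀ Z : 𝒱.Obj, Submodule W.K (T.M Z)) (hA : T.IsStable A) (X : 𝒱.Obj)
    (hD : ∀ n : ℕ, HomEqNum W (pw X n)) (m : ℕ) :
    (∀ x : T.M (pw X m), TateClass (ρ _) x → x ∈ A (pw X m)) ∨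
    ∀ n : ℕ, IndepMod {x : T.M (pw X n) | TateClass (ρ _) x} (A (pw X n))
      (gapBound (totalBetti W X) (cycRank ops (pw X n)) m n) :=
  Pool.Agent.X312.FK.tate_law hρ hT X hD hA m

end Pool.Agent.Results.MP_40dc3c_ag.RelativeGapLaw
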